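import Pool.Agent.Helper28.OHS.Goals

/-!
# Soundness of the machine on numbers
-/

namespace Pool.Agent.Helper95.OHS

open Pool.Agent.Helper65.LinSpace Pool.Agent.Helper78.Mpc Pool.Agent.Helper28.Ram Finset
open Pool.Agent.Helper65.OH (Prm OneHead Conf Par InBox co bz cz GoodQ Fns GEO_stmt STEP_stmt)
open Pool.Agent.Helper53.OH (In Out bz_lt out_in in_out split_lt accN_zero_of)
open Pool.Agent.Helper28.OHS

theorem capN_of_lt {V x : ℕ} (h : x < 2 ^ (V + 1)) : capN V x = x := by
  unfold capN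
  rcases Nat.eq_zero_or_pos x with rfl | hx
  · simp [ifz, lt01]
  · have h1 : Nat.log 2 x < V + 1 := Nat.log_lt_of_lt_pow hx.ne' h
    rw [lt01, if_neg (by omega), ifz_zero]

theorem capN_cases (V x : ℕ) : capN V x = 0 ∨ capN V x = x := by
  by_cases h : capN V x = 0
  · exact Or.inl h
  · exact Or.inr (capN_ne h)

theorem act_le (m : Prm) (b z : ℕ) : act m b z ≤ 1 := by
  unfold act
  have h1 : eq01 (m.blk (z % 2 ^ m.sg)) b ≤ 1 := by
    unfold eq01
    split_ifs <;> omega
  calc _ ≤ 1 * 1 := Nat.mul_le_mul h1 (by omega)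
    _ = 1 := rfl

theorem ct_le (m : Prm) (b z n : ℕ) : ct m b z n ≤ n := by
  unfold ct
  calc _ ≤ ∑ j ∈ range n, 1 := sum_le_sum fun j _ => act_le m b _
    _ = n := by simp

theorem enc_dec {m : Prm} {q : ℕ} (hq : q < 2 ^ m.sg) (t : ℕ) :
    1 < enc m q t ∧ dq m (enc m q t) = q ∧ dt m (enc m q t) = t := by
  obtain ⟨h1, h2⟩ := split_lt (v := t) hq
  refine ⟨by unfold enc; omega, ?_, ?_⟩
  · rw [dq, enc, Nat.add_sub_cancel_left, h1]
  · rw [dt, enc, Nat.add_sub_cancel_left, h2]

theorem wf_succ (m : Prm) (e : Pool.Agent.Helper81.Sus2.Prm) (τ c d a T : ℕ) :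
    wf m e τ c d a (T + 1) =
      (wN m e τ d a (wf m e τ c d a T).1 ((wf m e τ c d a T).2 (wA m e τ a (wf m e τ c d a T).1)),
        Function.update (wf m e τ c d a T).2 (wA m e τ a (wf m e τ c d a T).1)
          (wW m τ (wf m e τ c d a T).1
            ((wf m e τ c d a T).2 (wA m e τ a (wf m e τ c d a T).1)))) := rfl

section

variable {D : ℕ} {A : OneHead D} {eA eN eW c₀ : ℕ} {w y : List Bool} {m : Prm}
  {e : Pool.Agent.Helper81.Sus2.Prm}

/-- The conclusion. -/
def Con (A : OneHead D) (w y : List Bool) (m : Prm) (e : Pool.Agent.Helper81.Sus2.Prm)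
    (d a t : ℕ) : Prop :=
  (d = 0 → A.AcceptsAt w y t) ∧
    (d ≠ 0 → GoodQ m (A.conf w y t) (cs m d) ∧
      ∀ p, InBox m.κ p → a = cd m p + 1 →
        cn m e d (cellN m.κ (co m.κ p) m.D) = capN m.S (num ((A.conf w y t).M p)))

/-- The invariant. -/
def Inv (A : OneHead D) (w y : List Bool) (m : Prm) (e : Pool.Agent.Helper81.Sus2.Prm)
    (d a τ t₀ : ℕ) (s : ℕ × (ℕ → ℕ)) : Prop :=
  s.1 = 0 ∨ (s.1 = 1 ∧ Con A w y m e d a (t₀ + τ)) ∨
    ∃ t ≤ τ, ∃ q, s.1 = enc m q t ∧ Out A w y m (q, s.2) (t₀ + t)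

theorem inv_start (hCel : CEL_stmt) (hCub : CUB_stmt) (hP : Par A eA eN eW c₀ w y m)
    (ho : m.o < m.d) {c d a τ t₀ : ℕ} (hR : Rep m e c (A.conf w y t₀)) :
    Inv A w y m e d a τ t₀ (wf m e τ c d a 0) := by
  show Inv A w y m e d a τ t₀ (w0 m e c, cm m e c)
  rcases capN_cases e.V (enc m (cs m c) 0) with h | h
  · exact Or.inl h
  · refine Or.inr (Or.inr ⟨0, Nat.zero_le _, cs m c, h, ⟨hR.good, ?_⟩⟩)
    intro p hp
    have h1 : cz m p < m.d ^ D := Pool.Agent.Helper53.OH.cz_lt m hP.pos_d p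
    show dig (2 ^ (m.S + 1)) (tab (2 ^ (m.S + 1)) (m.d ^ m.D) (cc m e c (bz m p)) % 2 ^ m.a)
      (cz m p) = _
    have h2 : ∀ i < m.d ^ m.D, cc m e c (bz m p) i < 2 ^ (m.S + 1) := fun i _ => capN_lt _ _
    have h3 : cz m p < m.d ^ m.D := by
      rw [hP.h_D]
      exact h1
    rw [Pool.Agent.Helper53.OH.dig_mod_a hP _ h1, dig_tab h2 h3]
    rw [cc, hCel.congr m.κ m.D _ (co m.κ p)]
    · exact hR.ct p hp
    · intro k hk
      rw [hP.h_D] at hk
      exact hCub.cube m p hP.h_D hP.pos_d ho hp k hk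

theorem wF_le (d a Q v : ℕ) : wF m e d a Q v ≤ 1 := by
  unfold wF
  rcases Nat.eq_zero_or_pos d with rfl | hd
  · rw [ifz_zero]
    exact accN_le _
  · rw [ifz_ne hd.ne']
    have h1 : eq01 (dq m Q) (cs m d) ≤ 1 := by
      unfold eq01
      split_ifs <;> omega
    have h2 : ∀ x y : ℕ, ifz a 1 (eq01 x y) ≤ 1 := by
      intro x y
      unfold ifz eq01
      split_ifs <;> omega
    calc _ ≤ 1 * 1 := Nat.mul_le_mul h1 (h2 _ _)
      _ = 1 := rfl

theorem eq01_one {x y : ℕ} (h : eq01 x y ≠ 0) : x = y := by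
  by_contra h1
  exact h (eq01_ne h1)

theorem inv_step (hG : GEO_stmt) (hCel : CEL_stmt) (hCub : CUB_stmt) (hSls : SLS_stmt)
    (hP : Par A eA eN eW c₀ w y m) (ho : m.o < m.d) (hF : Fns A m) (hV : m.sg ≤ e.V + 1)
    {c d a τ t₀ T : ℕ} (h : Inv A w y m e d a τ t₀ (wf m e τ c d a T)) :
    Inv A w y m e d a τ t₀ (wf m e τ c d a (T + 1)) := by
  rw [wf_succ]
  set s := wf m e τ c d a T with hs
  have hbz : ∀ p : Fin D → ℤ, InBox m.κ p → capN e.V (bz m p) = bz m p := by
    intro p hp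
    refine capN_of_lt (lt_of_lt_of_le (bz_lt hP ho hp) ?_)
    rw [hP.h_σ]
    exact Nat.pow_le_pow_right (by norm_num) hV
  rcases h with h | ⟨h, hC⟩ | ⟨t, ht, q, h, hO⟩
  · left
    show wN m e τ d a s.1 _ = 0
    rw [h, wN, show lt01 1 0 = 0 from rfl, ifz_zero, Helper11.Ram.capN_zero]
  · right
    left
    refine ⟨?_, hC⟩
    show wN m e τ d a s.1 _ = 1
    rw [h, wN, show lt01 1 1 = 0 from rfl, ifz_zero]
    exact capN_of_lt (Nat.one_lt_two_pow (by omega))
  · have hq : q < 2 ^ m.sg := hO.good.lt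
    obtain ⟨h1, h2, h3⟩ := enc_dec hq t
    have hl : lt01 1 (enc m q t) = 1 := by rw [lt01, if_pos h1]
    rcases Nat.lt_or_ge t τ with htτ | htτ
    · -- a step in the cube
      obtain ⟨-, hb, hIn⟩ := out_in hG hP ho hO
      have hqm : q % 2 ^ m.sg = q := Nat.mod_eq_of_lt hq
      simp only [hqm] at hb hIn
      obtain ⟨-, -, hbox⟩ := hG.blk m _ _ hP.h_D hO.good
      have e1 : wA m e τ a s.1 = bz m (A.conf w y (t₀ + t)).h := by
        rw [h, wA, hl, ifz_ne one_ne_zero, h3, h2, eq01_ne (by omega), ifz_zero, hb, hbz _ hbox]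
      rw [e1]
      set b := bz m (A.conf w y (t₀ + t)).h with hbdef
      set v := s.2 b with hv
      have e2 : wz m τ s.1 v = rn m b (q + 2 ^ m.sg * v) (τ - t) := by
        rw [wz, h, h2, h3, hb]
      have e3 : wc m τ s.1 v = ct m b (q + 2 ^ m.sg * v) (τ - t) := by
        rw [wc, h, h2, h3, hb]
      have e4 : wN m e τ d a s.1 v = capN e.V (ifz (m.wq (wz m τ s.1 v % 2 ^ m.sg)) 0
          (enc m (wz m τ s.1 v % 2 ^ m.sg) (t + wc m τ s.1 v))) := by
        rw [wN, h, hl, ifz_ne one_ne_zero, h3, eq01_ne (by omega), ifz_zero]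
      have e5 : wW m τ s.1 v = wz m τ s.1 v / 2 ^ m.sg % 2 ^ m.a := by
        rw [wW, h, hl, ifz_ne one_ne_zero, h3, eq01_ne (by omega), ifz_zero]
      rw [e4, e5, e3, e2]
      rcases hSls A eA eN eW c₀ w y m hP ho hF b (t₀ + t) _ hIn (τ - t) with h4 | h4
      · left
        show capN e.V _ = 0
        rw [h4, ifz_zero, Helper11.Ram.capN_zero]
      · have h5 := h4.good.wq
        have h6 : m.wq (rn m b (q + 2 ^ m.sg * v) (τ - t) % 2 ^ m.sg) ≠ 0 := by
          rw [h5]
          have := num_pos (A.conf w y (t₀ + t + ct m b (q + 2 ^ m.sg * v) (τ - t))).q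
          omega
        rw [ifz_ne h6]
        rcases capN_cases e.V (enc m (rn m b (q + 2 ^ m.sg * v) (τ - t) % 2 ^ m.sg)
          (t + ct m b (q + 2 ^ m.sg * v) (τ - t))) with h7 | h7
        · exact Or.inl h7
        · right
          right
          have h8 := ct_le m b (q + 2 ^ m.sg * v) (τ - t)
          refine ⟨t + ct m b (q + 2 ^ m.sg * v) (τ - t), by omega, _, h7, ?_⟩
          have h9 := in_out hP hO.mem h4
          rw [hP.h_σ, Nat.mod_mod, add_assoc] at h9
          exact h9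
    · -- the final check
      have htt : t = τ := by omega
      subst htt
      set v := s.2 (wA m e t a s.1) with hv
      have e4 : wN m e t d a s.1 v = capN e.V (wF m e d a (enc m q t) v) := by
        rw [wN, h, hl, ifz_ne one_ne_zero, h3, eq01_of rfl, ifz_ne one_ne_zero]
      rw [e4]
      have h4 : wF m e d a (enc m q t) v = 0 ∨ wF m e d a (enc m q t) v = 1 := by
        have := wF_le (m := m) (e := e) d a (enc m q t) v
        omega
      rcases h4 with h4 | h4
      · left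
        show capN e.V _ = 0
        rw [h4, Helper11.Ram.capN_zero]
      · right
        left
        refine ⟨?_, ?_, ?_⟩
        · show capN e.V _ = 1
          rw [h4]
          exact capN_of_lt (Nat.one_lt_two_pow (by omega))
        · rintro rfl
          rw [wF, ifz_zero, h2, hO.good.wq] at h4
          exact (accN_num _).1 h4
        · intro hd
          rw [wF, ifz_ne hd, h2] at h4
          have h5 : eq01 q (cs m d) ≠ 0 := by
            intro h5
            rw [h5, zero_mul] at h4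
            exact absurd h4 (by norm_num)
          have h6 : q = cs m d := eq01_one h5
          refine ⟨h6 ▸ hO.good, ?_⟩
          rintro p hp rfl
          rw [ifz_ne (Nat.succ_ne_zero _), Nat.add_sub_cancel] at h4
          obtain ⟨c1, c2, c3, c4⟩ := hCub.cell m p hP.h_D hp
          have h7 : eq01 (dig (2 ^ (m.S + 1)) v (m.cel (2 ^ (m.S + 1) * cd m p)))
              (cn m e d (cellN m.κ (dig (2 ^ m.κ) (cd m p)) m.D)) ≠ 0 := by
            intro h7
            rw [h7, mul_zero] at h4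
            exact absurd h4 (by norm_num)
          have h8 := eq01_one h7
          have e1 : wA m e t (cd m p + 1) s.1 = bz m p := by
            rw [h, wA, hl, ifz_ne one_ne_zero, h3, eq01_of rfl, ifz_ne one_ne_zero,
              Nat.add_sub_cancel, c1, hbz p hp]
          rw [c2, hv, e1, hO.mem p hp] at h8
          rw [h8, hCel.congr m.κ m.D (co m.κ p) (dig (2 ^ m.κ) (cd m p))]
          intro k hk
          rw [hP.h_D] at hk
          exact (c4 k hk).symm

end

/-- SND. Soundness of the machine on numbers. -/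
theorem snd (hG : GEO_stmt) (hCel : CEL_stmt) (hCub : CUB_stmt) (hSls : SLS_stmt) : SND_stmt := by
  intro D A eA eN eW c₀ w y m e hP ho hF hV c d a τ t₀ T hR h1
  have key : ∀ T, Inv A w y m e d a τ t₀ (wf m e τ c d a T) := by
    intro T
    induction T with
    | zero => exact inv_start hCel hCub hP ho hR
    | succ T ih => exact inv_step hG hCel hCub hSls hP ho hF hV ih
  rcases key T with h | ⟨-, h⟩ | ⟨t, -, q, h, hO⟩
  · omega
  · exact h
  · have h2 : q < 2 ^ m.sg := hO.good.lt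
    have := (enc_dec h2 t).1
    omega

end Pool.Agent.Helper95.OHS
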